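import Pool.Agent.Lib.MP_28303a_al.TT.H66.FreeG
import Pool.Agent.Lib.MP_28303a_al.TW.H19.Thg
import Pool.Agent.Lib.MP_28303a_al.TT.Rows2

/-! # WALD: trees with noetherian stabilizers of edges -/

set_option autoImplicit false
set_option linter.unusedSectionVars false
set_option linter.unusedVariables false

namespace Pool.Agent.NegK.TT.H66

universe u v

open Pool.Agent.NegK.TW Matrix MonoidAlgebra

/-! ### Finite generation for noetherian stabilizers -/

section gen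

variable {k : Type u} [Ring k] {Γ : Type u} [Group Γ] {X : Type u} [MulAction Γ X] {J I : Type}
  [Fintype J] [DecidableEq J] [Fintype I]

theorem mdr_coeff_ne {G : Subgroup Γ} {c : MonoidAlgebra k G} {γ : Γ}
    (h : (mdr k G.subtype c).coeff γ ≠ 0) : γ ∈ G := by
  by_contra hc
  refine h (Finsupp.mapDomain_of_notMem_range _ _ ?_)
  rintro ⟨b, rfl⟩
  exact hc b.2

theorem exists_mdr {G : Subgroup Γ} {x : MonoidAlgebra k Γ} (hx : ∀ γ, x.coeff γ ≠ 0 → γ ∈ G) :
    ∃ y : MonoidAlgebra k G, mdr k G.subtype y = x := by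
  refine ⟨comapDomain G.subtype G.subtype_injective x, ?_⟩
  ext γ
  by_cases h : γ ∈ G
  · have h1 : (mdr k G.subtype (comapDomain G.subtype G.subtype_injective x)).coeff
        (G.subtype ⟨γ, h⟩) = (comapDomain G.subtype G.subtype_injective x).coeff ⟨γ, h⟩ :=
      Finsupp.mapDomain_apply G.subtype_injective _ _
    rw [coeff_comapDomain, Finsupp.comapDomain_apply] at h1
    exact h1
  · have h1 : (mdr k G.subtype (comapDomain G.subtype G.subtype_injective x)).coeff γ = 0 := by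
      by_contra hc
      exact h (mdr_coeff_ne hc)
    rw [h1]
    by_contra hc
    exact h (hx γ (Ne.symm hc))

theorem spt_mdr_smul {vt : I → X} {v : X} (c : MonoidAlgebra k (MulAction.stabilizer Γ v))
    {x : J × I → MonoidAlgebra k Γ} (hx : Spt (dv J vt) {v} x) :
    Spt (dv J vt) {v} (mdr k (MulAction.stabilizer Γ v).subtype c • x) := by
  intro p γ hγ
  rw [Pi.smul_apply, smul_eq_mul] at hγ
  obtain ⟨a, b, ha, hb, rfl⟩ := coeff_mul_ne_zero hγ
  have h1 : a • v = v := mdr_coeff_ne ha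
  have h2 : b • vt p.2 = v := hx p b hb
  show (a * b) • vt p.2 = v
  rw [mul_smul, h2, h1]

theorem fg_noeth (vt : I → X) (M : Submodule (MonoidAlgebra k Γ) (J × I → MonoidAlgebra k Γ))
    (v : X) (hk : IsNoetherian (MonoidAlgebra k (MulAction.stabilizer Γ v))
      (MonoidAlgebra k (MulAction.stabilizer Γ v))) :
    ∃ (n : ℕ) (w : Fin n → J × I → MonoidAlgebra k Γ),
      (∀ a, w a ∈ M ∧ Spt (dv J vt) {v} (w a)) ∧
      ∀ x ∈ M, Spt (dv J vt) {v} x → x ∈ Submodule.span (MonoidAlgebra k Γ) (Set.range w) := by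
  classical
  set G := MulAction.stabilizer Γ v with hG
  have hg : ∀ p : J × I, ∃ g : Γ, ∀ γ : Γ, γ • vt p.2 = v → γ * g⁻¹ ∈ G := by
    intro p
    by_cases h : ∃ γ : Γ, γ • vt p.2 = v
    · obtain ⟨g, hg⟩ := h
      refine ⟨g, fun γ hγ => ?_⟩
      show (γ * g⁻¹) • v = v
      rw [mul_smul, ← hg, inv_smul_smul, hγ, hg]
    · exact ⟨1, fun γ hγ => absurd ⟨γ, hγ⟩ h⟩
  choose g hg using hg
  let W : Submodule (MonoidAlgebra k G) (J × I → MonoidAlgebra k G) :=
    { carrier := {y | ∃ x ∈ M, Spt (dv J vt) {v} x ∧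
        ∀ p, mdr k G.subtype (y p) = x p * single (g p)⁻¹ 1}
      zero_mem' := ⟨0, M.zero_mem, Spt.zero, fun p => by
        rw [Pi.zero_apply, Pi.zero_apply, map_zero, zero_mul]⟩
      add_mem' := by
        rintro _ _ ⟨x, hx, hx1, hx2⟩ ⟨y, hy, hy1, hy2⟩
        refine ⟨x + y, M.add_mem hx hy, hx1.add hy1, fun p => ?_⟩
        rw [Pi.add_apply, map_add, hx2, hy2, Pi.add_apply, add_mul]
      smul_mem' := by
        rintro c _ ⟨x, hx, hx1, hx2⟩
        refine ⟨mdr k G.subtype c • x, M.smul_mem _ hx, spt_mdr_smul c hx1, fun p => ?_⟩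
        rw [Pi.smul_apply, smul_eq_mul, map_mul, hx2, Pi.smul_apply, smul_eq_mul, mul_assoc] }
  have hW : W.FG := IsNoetherian.noetherian W
  obtain ⟨n, s, hs⟩ := Submodule.fg_iff_exists_fin_generating_family.1 hW
  have hs1 : ∀ a, s a ∈ W := fun a => hs ▸ Submodule.subset_span ⟨a, rfl⟩
  choose w hw1 hw2 hw3 using hs1
  refine ⟨n, w, fun a => ⟨hw1 a, hw2 a⟩, fun x hx hx1 => ?_⟩
  have h0 : ∀ p, ∃ y : MonoidAlgebra k G, mdr k G.subtype y = x p * single (g p)⁻¹ 1 := by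
    intro p
    refine exists_mdr fun γ hγ => ?_
    obtain ⟨a, b, ha, hb, rfl⟩ := coeff_mul_ne_zero hγ
    rw [coeff_single_ne hb]
    exact hg p a (hx1 p a ha)
  choose y hy using h0
  have h1 : y ∈ W := ⟨x, hx, hx1, hy⟩
  rw [← hs, Submodule.mem_span_range_iff_exists_fun] at h1
  obtain ⟨c, hc⟩ := h1
  have h2 : x = ∑ a, mdr k G.subtype (c a) • w a := by
    funext p
    have h3 := hy p
    rw [← hc, Finset.sum_apply, map_sum] at h3
    have h4 : ∀ z : MonoidAlgebra k Γ, z * single (g p)⁻¹ 1 * single (g p) 1 = z := by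
      intro z
      rw [mul_assoc, MonoidAlgebra.single_mul_single, inv_mul_cancel, mul_one,
        ← MonoidAlgebra.one_def, mul_one]
    rw [← h4 (x p), ← h3, Finset.sum_apply, Finset.sum_mul]
    refine Finset.sum_congr rfl fun a _ => ?_
    rw [Pi.smul_apply, Pi.smul_apply, smul_eq_mul, smul_eq_mul, map_mul, hw3, ← mul_assoc, h4]
  rw [h2]
  exact Submodule.sum_mem _ fun a _ => Submodule.smul_mem _ _ (Submodule.subset_span ⟨a, rfl⟩)

/-- The modules `Mo` are generated by finitely many homogeneous rows. -/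
theorem mo_gen_noeth (vt : I → X) (N : Submodule (MonoidAlgebra k Γ) (J → MonoidAlgebra k Γ))
    (hk : ∀ i, IsNoetherian (MonoidAlgebra k (MulAction.stabilizer Γ (vt i)))
      (MonoidAlgebra k (MulAction.stabilizer Γ (vt i)))) :
    ∃ (Θ : Type) (_ : Fintype Θ) (Z : Matrix Θ (J × I) (MonoidAlgebra k Γ)) (c : Θ → X),
      (∀ a, Spt (dv J vt) {c a} (Z a)) ∧ LinearMap.range Z.vecMulLinear = Mo vt N := by
  classical
  choose n w hw1 hw2 using fun i : I => fg_noeth vt (Mo vt N) (vt i) (hk i)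
  obtain ⟨Z, hZ⟩ : ∃ Z : Matrix (Σ i : I, Fin (n i)) (J × I) (MonoidAlgebra k Γ),
    ∀ a, Z a = w a.1 a.2 := ⟨fun a => w a.1 a.2, fun a => rfl⟩
  refine ⟨Σ i : I, Fin (n i), inferInstance, Z, fun a => vt a.1,
    fun a => by rw [hZ]; exact (hw1 a.1 a.2).2, ?_⟩
  apply le_antisymm
  · rintro _ ⟨x, rfl⟩
    rw [Matrix.vecMulLinear_apply, Matrix.vecMul_eq_sum]
    refine Submodule.sum_mem _ fun a _ => Submodule.smul_mem _ _ ?_
    rw [hZ]
    exact (hw1 a.1 a.2).1
  · intro x hx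
    obtain ⟨F, hF⟩ := exists_degrees (dv J vt) x
    rw [← hF.sum_res]
    refine Submodule.sum_mem _ fun v _ => ?_
    by_cases h0 : res (dv J vt) {v} x = 0
    · rw [h0]
      exact Submodule.zero_mem _
    · obtain ⟨p, γ, hp⟩ : ∃ (p : J × I) (γ : Γ), (res (dv J vt) {v} x p).coeff γ ≠ 0 := by
        by_contra hc
        push Not at hc
        refine h0 ?_
        funext p
        ext γ
        exact hc p γ
      have h1 : γ • vt p.2 = v := spt_res (dv J vt) {v} x p γ hp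
      have h2 : res (dv J vt) {v} x = (single γ 1 : MonoidAlgebra k Γ) •
          ((single γ⁻¹ 1 : MonoidAlgebra k Γ) • res (dv J vt) {v} x) := by
        rw [smul_smul, MonoidAlgebra.single_mul_single, mul_inv_cancel, one_mul,
          ← MonoidAlgebra.one_def, one_smul]
      rw [h2]
      refine Submodule.smul_mem _ _ ?_
      have h3 := hw2 p.2 _ ((Mo vt N).smul_mem (single γ⁻¹ 1 : MonoidAlgebra k Γ)
        (res_mem_mo hx v)) ((spt_res (dv J vt) {v} x).single_smul γ⁻¹ 1 (by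
          rintro d hd
          rw [Set.mem_singleton_iff] at hd ⊢
          rw [hd, ← h1, inv_smul_smul]))
      refine Submodule.span_le.2 ?_ h3
      rintro _ ⟨a, rfl⟩
      refine ⟨Pi.single ⟨p.2, a⟩ 1, ?_⟩
      rw [Matrix.vecMulLinear_apply, Matrix.single_one_vecMul]
      exact hZ _

end gen

/-! ### The exact sequence -/

section exact

variable {k : Type u} [Ring k] {Γ : Type u} [Group Γ] {V E : Type u} [MulAction Γ V]
  [MulAction Γ E] {J : Type} [Fintype J] [DecidableEq J] {I₀ I₁ : Type} [Fintype I₀] [Fintype I₁]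
  [DecidableEq I₀] {T : OTree Γ V E} {b : V} {V₀ : Finset V} {E₀ : Finset E} {M : V → E → ℤ}
  {vt : I₀ → V} {et : I₁ → E}

/-- The exact sequence with a smaller module at the vertices. -/
theorem res_of_sub (hT : T.Subtrees b) (h : FSub T b V₀ E₀ M) (hv : Enum vt V₀)
    (he : Enum et E₀) {Λ : Type} [Fintype Λ] (z : Matrix Λ J (MonoidAlgebra k Γ))
    (hz : ∀ (l : Λ) (j : J) (γ : Γ), (z l j).coeff γ ≠ 0 → γ⁻¹ • b ∈ V₀)
    (τ ω : I₁ → I₀) (hτ : ∀ l, vt (τ l) = T.t (et l)) (hω : ∀ l, vt (ω l) = T.o (et l))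
    (P : Submodule (MonoidAlgebra k Γ) (J × I₀ → MonoidAlgebra k Γ))
    (hP : P ≤ Mo vt (LinearMap.range z.vecMulLinear)) (hP1 : ∀ l, lf vt b (z l) ∈ P)
    (hP2 : ∀ y ∈ Mo et (LinearMap.range z.vecMulLinear), y ᵥ* mt k Γ J τ ∈ P ∧
      y ᵥ* mt k Γ J ω ∈ P)
    (h0 : ∃ n, HasFPRes (MonoidAlgebra k Γ) n P)
    (h1 : ∃ n, HasFPRes (MonoidAlgebra k Γ) n (Mo et (LinearMap.range z.vecMulLinear))) :
    ∃ n, HasFPRes (MonoidAlgebra k Γ) n (LinearMap.range z.vecMulLinear) := by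
  classical
  set N := LinearMap.range z.vecMulLinear with hN
  have hmaps : ∀ y ∈ Mo et N, y ᵥ* (mt k Γ J τ - mt k Γ J ω) ∈ P := by
    intro y hy
    rw [Matrix.vecMul_sub]
    exact Submodule.sub_mem _ (hP2 y hy).1 (hP2 y hy).2
  refine Pool.Agent.NegK.H50.ext (MonoidAlgebra k Γ) (Mo et N) P N
    ((mt k Γ J τ - mt k Γ J ω).vecMulLinear.restrict hmaps)
    ((sm k Γ J I₀).vecMulLinear.restrict fun x hx => mo_sm (hP hx)) ?_ ?_ ?_ h1 h0
  · refine (injective_iff_map_eq_zero _).2 ?_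
    rintro ⟨y, hy⟩ hy0
    have h2 : y ᵥ* (mt k Γ J τ - mt k Γ J ω) = 0 := congrArg Subtype.val hy0
    refine Subtype.ext ?_
    show y = 0
    funext p
    have h3 := chain_inj h hv he (fun l => y (p.1, l)) (fun i => by
      rw [← bd_apply hv τ ω hτ hω, h2]
      rfl)
    exact congrFun h3 p.2
  · rintro ⟨x, hx⟩
    obtain ⟨c, hc⟩ := hx
    refine ⟨⟨∑ l, c l • lf vt b (z l), Submodule.sum_mem _ fun l _ =>
      Submodule.smul_mem _ _ (hP1 l)⟩, Subtype.ext ?_⟩
    show (∑ l, c l • lf vt b (z l)) ᵥ* sm k Γ J I₀ = x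
    rw [sum_vecMul, ← hc, Matrix.vecMulLinear_apply, Matrix.vecMul_eq_sum]
    refine Finset.sum_congr rfl fun l _ => ?_
    rw [Matrix.smul_vecMul, lf_sm hv.inj fun j γ hγ => by
      obtain ⟨i, hi⟩ := hv.surj _ (hz l j γ hγ)
      exact ⟨i, by rw [hi, smul_inv_smul]⟩]
  · apply le_antisymm
    · rintro _ ⟨⟨y, hy⟩, rfl⟩
      rw [LinearMap.mem_ker]
      refine Subtype.ext ?_
      show y ᵥ* (mt k Γ J τ - mt k Γ J ω) ᵥ* sm k Γ J I₀ = 0
      rw [Matrix.vecMul_sub, Matrix.sub_vecMul, mt_sm, mt_sm, sub_self]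
    · rintro ⟨x, hx⟩ hx0
      have h2 : x ᵥ* sm k Γ J I₀ = 0 := congrArg Subtype.val (LinearMap.mem_ker.1 hx0)
      have h3 : ct M vt et x ∈ Mo et N := by
        intro e
        rw [ct_res hT h hv he h2]
        exact mo_res (hP hx) _
      refine ⟨⟨ct M vt et x, h3⟩, Subtype.ext ?_⟩
      show ct M vt et x ᵥ* (mt k Γ J τ - mt k Γ J ω) = x
      funext p
      obtain ⟨j, i⟩ := p
      rw [bd_apply hv τ ω hτ hω]
      refine chain_exact h hv he (fun i => x (j, i)) ?_ i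
      have h4 := congrFun h2 j
      rw [vecMul_sm] at h4
      exact h4

theorem mt_spt (f : E → V) (hf : ∀ (g : Γ) (e : E), f (g • e) = g • f e) (τ : I₁ → I₀)
    (hτ : ∀ l, vt (τ l) = f (et l)) {y : J × I₁ → MonoidAlgebra k Γ} {e : E}
    (hy : Spt (dv J et) {e} y) : Spt (dv J vt) {f e} (y ᵥ* mt k Γ J τ) := by
  intro p γ hγ
  obtain ⟨j, i⟩ := p
  rw [vecMul_mt] at hγ
  obtain ⟨l, _, hl⟩ := coeff_sum_ne hγ
  by_cases h : τ l = i
  · rw [if_pos h] at hl
    have h1 : γ • et l = e := hy (j, l) γ hl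
    show γ • vt i = f e
    rw [← h, hτ, ← hf, h1]
  · rw [if_neg h] at hl
    exact absurd rfl hl

end exact

/-! ### The theorem -/

/-- The theorem for the ring `k`. -/
theorem regCoh_tree {k Γ V E : Type u} [Ring k] [Group Γ] [MulAction Γ V] [MulAction Γ E]
    (T : OTree Γ V E) (b : V) (hT : T.Subtrees b)
    (hV : ∀ v : V, RegCoh (MonoidAlgebra k (MulAction.stabilizer Γ v)))
    (hE : ∀ e : E, RegCoh (MonoidAlgebra k (MulAction.stabilizer Γ e)))
    (hE' : ∀ e : E, IsNoetherian (MonoidAlgebra k (MulAction.stabilizer Γ e))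
      (MonoidAlgebra k (MulAction.stabilizer Γ e))) : RegCoh (MonoidAlgebra k Γ) := by
  classical
  intro n N hN
  obtain ⟨m, z, hz⟩ := Submodule.fg_iff_exists_fin_generating_family.1 hN
  obtain ⟨Z, hZz⟩ : ∃ Z : Matrix (Fin m) (Fin n) (MonoidAlgebra k Γ), ∀ a, Z a = z a :=
    ⟨z, fun _ => rfl⟩
  have hZ : LinearMap.range Z.vecMulLinear = N := by
    rw [← hz]
    apply le_antisymm
    · rintro _ ⟨x, rfl⟩
      rw [Matrix.vecMulLinear_apply, Matrix.vecMul_eq_sum]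
      refine Submodule.sum_mem _ fun a _ => Submodule.smul_mem _ _ ?_
      rw [hZz]
      exact Submodule.subset_span ⟨a, rfl⟩
    · refine Submodule.span_le.2 ?_
      rintro _ ⟨a, rfl⟩
      refine ⟨Pi.single a 1, ?_⟩
      rw [Matrix.vecMulLinear_apply, Matrix.single_one_vecMul]
      exact hZz a
  obtain ⟨V₀, E₀, M, hF, h⟩ := exists_fsub hT
    (Finset.univ.biUnion fun l : Fin m => Finset.univ.biUnion fun j : Fin n =>
      (Z l j).coeff.support.image fun γ => γ⁻¹ • b)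
  have hsup : ∀ (l : Fin m) (j : Fin n) (γ : Γ), (Z l j).coeff γ ≠ 0 → γ⁻¹ • b ∈ V₀ := by
    intro l j γ hγ
    refine hF ?_
    rw [Finset.mem_biUnion]
    refine ⟨l, Finset.mem_univ l, ?_⟩
    rw [Finset.mem_biUnion]
    exact ⟨j, Finset.mem_univ j, Finset.mem_image_of_mem _ (Finsupp.mem_support_iff.2 hγ)⟩
  obtain ⟨vt, hv⟩ := exists_enum V₀
  obtain ⟨et, he⟩ := exists_enum E₀
  have hτ : ∀ l, ∃ i, vt i = T.t (et l) := fun l => hv.surj _ (h.ends _ (he.mem l)).2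
  have hω : ∀ l, ∃ i, vt i = T.o (et l) := fun l => hv.surj _ (h.ends _ (he.mem l)).1
  choose τ hτ using hτ
  choose ω hω using hω
  have hcoh : CohStatement.{u} := TW.H30.coh (TW.H14.coh1 TW.H59.mra TW.H59.mrb TW.H14.mrc)
  rw [← hZ]
  set N' := LinearMap.range Z.vecMulLinear with hN'
  have hcov : ∀ (l : Fin m) (j : Fin n) (γ : Γ), (Z l j).coeff γ ≠ 0 → ∃ i, γ • vt i = b := by
    intro l j γ hγ
    obtain ⟨i, hi⟩ := hv.surj _ (hsup l j γ hγ)
    exact ⟨i, by rw [hi, smul_inv_smul]⟩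
  have hZN : ∀ l, Z l ∈ N' := fun l => ⟨Pi.single l 1, by
    rw [Matrix.vecMulLinear_apply, Matrix.single_one_vecMul]
    rfl⟩
  obtain ⟨Θ, _, Y, c, hY1, hY2⟩ := mo_gen_noeth (J := Fin n) et N' (fun l => hE' (et l))
  have hYm : ∀ a, Y a ∈ Mo et N' := fun a => by
    rw [← hY2]
    refine ⟨Pi.single a 1, ?_⟩
    rw [Matrix.vecMulLinear_apply, Matrix.single_one_vecMul]
    rfl
  -- the generators at the vertices
  obtain ⟨Q, hQ1, hQ2, hQ3⟩ : ∃ Q : Matrix ((Θ ⊕ Θ) ⊕ Fin m) (Fin n × Fin V₀.card)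
      (MonoidAlgebra k Γ), (∀ a, Q (Sum.inl (Sum.inl a)) = Y a ᵥ* mt k Γ (Fin n) τ) ∧
        (∀ a, Q (Sum.inl (Sum.inr a)) = Y a ᵥ* mt k Γ (Fin n) ω) ∧
        (∀ l, Q (Sum.inr l) = lf vt b (Z l)) :=
    ⟨Sum.elim (Sum.elim (fun a => Y a ᵥ* mt k Γ (Fin n) τ) (fun a => Y a ᵥ* mt k Γ (Fin n) ω))
      (fun l => lf vt b (Z l)), fun a => rfl, fun a => rfl, fun l => rfl⟩
  let cQ : (Θ ⊕ Θ) ⊕ Fin m → V :=
    Sum.elim (Sum.elim (fun a => T.t (c a)) (fun a => T.o (c a))) (fun _ => b)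
  have hQs : ∀ a, Spt (dv (Fin n) vt) {cQ a} (Q a) := by
    rintro ((a | a) | l)
    · rw [hQ1]
      exact mt_spt T.t T.t_smul τ hτ (hY1 a)
    · rw [hQ2]
      exact mt_spt T.o T.o_smul ω hω (hY1 a)
    · rw [hQ3]
      exact spt_lf vt b (Z l)
  have hQr : ∀ a, Q a ∈ LinearMap.range Q.vecMulLinear := fun a => ⟨Pi.single a 1, by
    rw [Matrix.vecMulLinear_apply, Matrix.single_one_vecMul]
    rfl⟩
  refine res_of_sub hT h hv he Z hsup τ ω hτ hω (LinearMap.range Q.vecMulLinear) ?_ ?_ ?_ ?_ ?_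
  · rintro _ ⟨x, rfl⟩
    rw [Matrix.vecMulLinear_apply, Matrix.vecMul_eq_sum]
    refine Submodule.sum_mem _ fun a _ => Submodule.smul_mem _ _ ?_
    rcases a with (a | a) | l
    · rw [hQ1]
      exact mt_mem T.t T.t_smul τ hτ (hYm a)
    · rw [hQ2]
      exact mt_mem T.o T.o_smul ω hω (hYm a)
    · rw [hQ3]
      refine mem_mo_of_spt (spt_lf vt b (Z l)) ?_
      rw [lf_sm hv.inj (hcov l)]
      exact hZN l
  · intro l
    rw [← hQ3]
    exact hQr _
  · intro y hy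
    rw [← hN', ← hY2] at hy
    obtain ⟨x, rfl⟩ := hy
    have h5 : x ᵥ* Y = ∑ a, x a • Y a := Matrix.vecMul_eq_sum _ _
    rw [Matrix.vecMulLinear_apply, h5, sum_vecMul, sum_vecMul]
    refine ⟨Submodule.sum_mem _ fun a _ => ?_, Submodule.sum_mem _ fun a _ => ?_⟩
    · rw [Matrix.smul_vecMul, ← hQ1]
      exact Submodule.smul_mem _ _ (hQr _)
    · rw [Matrix.smul_vecMul, ← hQ2]
      exact Submodule.smul_mem _ _ (hQr _)
  · exact hcoh k Γ V _ _ (dv (Fin n) vt) Q cQ hQs fun a => hV _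
  · rw [← hN', ← hY2]
    exact hcoh k Γ E _ _ (dv (Fin n) et) Y c hY1 fun a => hE _

/-- FREE. -/
theorem free : FreeStatement.{u} :=
  fun Γ V _ _ G hG h => free_tree G hG fun g v hg => h g ⟨v, hg⟩

/-- WALD. A group acting on a tree without inversions, with stabilizers of vertices in `InRC`, and
stabilizers of edges with regular group rings over regular rings, is in `InRC`. -/
theorem wald : WaldStatement.{u} := by
  intro Γ V _ _ G hG hV hE R _ hR
  obtain ⟨E, _, T, hT⟩ := TW.H19.tre' Γ V G hG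
  obtain ⟨b⟩ := hG.tree.connected.nonempty
  have h1 : ∀ e : E, RegularRing (MonoidAlgebra R (MulAction.stabilizer Γ e)) := by
    intro e
    rw [TW.H19.stab_edge T hT e]
    exact hE _ _ (hT.adj e) R hR
  exact regCoh_tree T b (TW.H12.subt Γ V E G T hG.tree hT b) (fun v => hV v R hR)
    (fun e => TW.H67.regCoh_of_regular (h1 e)) (fun e => (h1 e).1)

end Pool.Agent.NegK.TT.H66
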