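import Pool.Agent.Lib.MP_28303a_al.TT.Rows2
import Pool.Agent.Lib.MP_28303a_al.TT.H91.Sub

/-! # Row NSUB: subgroups of groups with regular group rings -/

set_option autoImplicit false

namespace Pool.Agent.NegK.TT.H66

open Matrix MonoidAlgebra
open Pool.Agent.NegK.TW

universe u

/-- Left noetherian rings descend along `Ext`. -/
theorem noetherian_of_ext {A B : Type u} [Ring A] [Ring B] (E : H91.Ext A B)
    (h : IsNoetherian B B) : IsNoetherian A A := by
  have h1 : IsNoetherian A (Fin 1 → A) := by
    refine ⟨fun N => E.fg_of_ext N ?_⟩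
    exact IsNoetherian.noetherian _
  exact isNoetherian_of_linearEquiv (LinearEquiv.funUnique (Fin 1) A A)

/-- A noetherian regular coherent ring is regular. -/
theorem regular_of_regCoh {A : Type u} [Ring A] (h : IsNoetherian A A) (hc : RegCoh A) :
    RegularRing A := by
  refine ⟨h, fun M _ _ hM => ?_⟩
  obtain ⟨n, f, hf⟩ := Module.Finite.exists_fin' A M
  obtain ⟨d, hd⟩ := hc n (LinearMap.ker f) (IsNoetherian.noetherian _)
  exact ⟨d + 1, Fin n → A, inferInstance, inferInstance, f, inferInstance, inferInstance, hf, hd⟩

/-- NSUB for injective homomorphisms. -/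
theorem inN_of_injective {G H : Type u} [Group G] [Group H] (f : G →* H)
    (hf : Function.Injective f) (h : InN H) : InN G := by
  intro R _ hR
  have h1 := h R hR
  refine regular_of_regCoh (noetherian_of_ext (H91.gext f hf) h1.1) ?_
  exact H91.regCoh_of_injective f hf fun n N hN => h1.2 N (Module.Finite.iff_fg.2 hN)

/-- NSUB. -/
theorem inN_sub {G : Type u} [Group G] (h : InN G) (H : Subgroup G) : InN H :=
  inN_of_injective H.subtype H.subtype_injective h

/-- NSUB, smaller subgroups. -/
theorem inN_mono {G : Type u} [Group G] {H K : Subgroup G} (hHK : H ≤ K) (h : InN K) : InN H :=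
  inN_of_injective (Subgroup.inclusion hHK) (Subgroup.inclusion_injective hHK) h

end Pool.Agent.NegK.TT.H66
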