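import Pool.Agent.Lib.MP_28303a_al.TT.H66.Gra
import Pool.Agent.Lib.MP_28303a_al.TW.Graph
import Pool.Agent.Lib.MP_28303a_al.TW.H30.Coh
import Pool.Agent.Lib.MP_28303a_al.TW.H14.Coh1
import Pool.Agent.Lib.MP_28303a_al.TW.H14.Mrc
import Pool.Agent.Lib.MP_28303a_al.TW.H59.Mra
import Pool.Agent.Lib.MP_28303a_al.TW.H59.Mrb
import Pool.Agent.Lib.MP_28303a_al.TW.H67.Triv
import Pool.Agent.Lib.MP_28303a_al.TW.H89.Rci

/-! # FREE: groups acting freely on trees are regular coherent -/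

set_option autoImplicit false
set_option linter.unusedSectionVars false
set_option linter.unusedVariables false

namespace Pool.Agent.NegK.TT.H66

universe u v

open Pool.Agent.NegK.TW Matrix MonoidAlgebra

/-! ### Reindexing the chain complex of a finite subtree -/

section chain

variable {Γ : Type u} [Group Γ] {V E : Type u} [MulAction Γ V] [MulAction Γ E]

/-- Enumeration of a finite set. -/
structure Enum {X : Type u} {I : Type} (vt : I → X) (S : Finset X) : Prop where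
  inj : Function.Injective vt
  mem : ∀ i, vt i ∈ S
  surj : ∀ v ∈ S, ∃ i, vt i = v

theorem exists_enum {X : Type u} (S : Finset X) : ∃ vt : Fin S.card → X, Enum vt S := by
  refine ⟨fun i => (S.equivFin.symm i : X), fun i i' h => ?_, fun i => (S.equivFin.symm i).2,
    fun v hv => ⟨S.equivFin ⟨v, hv⟩, ?_⟩⟩
  · exact S.equivFin.symm.injective (Subtype.ext h)
  · rw [Equiv.symm_apply_apply]

theorem Enum.sum {X : Type u} {I : Type} [Fintype I] {vt : I → X} {S : Finset X} (h : Enum vt S)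
    {A : Type v} [AddCommMonoid A] (f : X → A) : ∑ v ∈ S, f v = ∑ i, f (vt i) := by
  classical
  have h1 : S = Finset.univ.image vt := by
    ext v
    rw [Finset.mem_image]
    constructor
    · intro hv
      obtain ⟨i, hi⟩ := h.surj v hv
      exact ⟨i, Finset.mem_univ i, hi⟩
    · rintro ⟨i, _, rfl⟩
      exact h.mem i
  rw [h1, Finset.sum_image (fun i _ i' _ hii => h.inj hii)]

variable {T : OTree Γ V E} {b : V} {V₀ : Finset V} {E₀ : Finset E} {M : V → E → ℤ}
  {I₀ I₁ : Type} [Fintype I₀] [Fintype I₁] {vt : I₀ → V} {et : I₁ → E}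

theorem chain_inj (h : FSub T b V₀ E₀ M) (hv : Enum vt V₀) (he : Enum et E₀) {A : Type v}
    [AddCommGroup A] (y : I₁ → A) (hy : ∀ i, ∑ l, bd T (et l) (vt i) • y l = 0) : y = 0 := by
  have h1 : ∀ l, Function.extend et y 0 (et l) = y l := fun l => he.inj.extend_apply y 0 l
  have h2 := h.inj (Function.extend et y 0) (fun w hw => by
    obtain ⟨i, rfl⟩ := hv.surj w hw
    rw [he.sum]
    simp only [h1]
    exact hy i)
  funext l
  rw [← h1 l]
  exact h2 _ (he.mem l)

theorem chain_exact (h : FSub T b V₀ E₀ M) (hv : Enum vt V₀) (he : Enum et E₀) {A : Type v}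
    [AddCommGroup A] (x : I₀ → A) (hx : ∑ i, x i = 0) (i : I₀) :
    ∑ l, bd T (et l) (vt i) • ∑ i', M (vt i') (et l) • x i' = x i := by
  have h1 : ∀ l, Function.extend vt x 0 (vt l) = x l := fun l => hv.inj.extend_apply x 0 l
  have h2 := h.exact (Function.extend vt x 0) (by
    rw [hv.sum]
    simp only [h1]
    exact hx) (hv.mem i)
  rw [he.sum] at h2
  simp only [hv.sum, h1] at h2
  exact h2

theorem contr_eq (h : FSub T b V₀ E₀ M) (hv : Enum vt V₀) (he : Enum et E₀) (i : I₀) (l : I₁) :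
    M (vt i) (et l) = hh T (et l) (vt i) - hh T (et l) b := by
  classical
  rw [← h.sum_sub (hh T (et l)) (hv.mem i), Finset.sum_eq_single (et l)]
  · rw [hh_t, hh_o, sub_zero, smul_eq_mul, mul_one]
  · intro e' _ hne
    rw [hh_cross T hne, sub_self, smul_zero]
  · intro hc
    exact absurd (he.mem l) hc

end chain

/-! ### The exact sequence -/

section exact

variable {k : Type u} [Ring k] {Γ : Type u} [Group Γ] {V E : Type u} [MulAction Γ V]
  [MulAction Γ E] {J : Type} [Fintype J] [DecidableEq J] {I₀ I₁ : Type} [Fintype I₀] [Fintype I₁]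
  [DecidableEq I₀]

/-- The matrix of a map between index sets. -/
noncomputable def mt (k Γ : Type u) [Ring k] [Group Γ] (J : Type) [DecidableEq J] {I₀ I₁ : Type}
    [DecidableEq I₀] (τ : I₁ → I₀) : Matrix (J × I₁) (J × I₀) (MonoidAlgebra k Γ) :=
  fun p q => if p.1 = q.1 ∧ τ p.2 = q.2 then 1 else 0

theorem vecMul_mt (τ : I₁ → I₀) (y : J × I₁ → MonoidAlgebra k Γ) (j : J) (i : I₀) :
    (y ᵥ* mt k Γ J τ) (j, i) = ∑ l, if τ l = i then y (j, l) else 0 := by
  rw [Matrix.vecMul, dotProduct, Fintype.sum_prod_type, Finset.sum_eq_single j]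
  · refine Finset.sum_congr rfl fun l _ => ?_
    show y (j, l) * (if j = j ∧ τ l = i then 1 else 0) = _
    by_cases h : τ l = i
    · rw [if_pos ⟨rfl, h⟩, if_pos h, mul_one]
    · rw [if_neg (fun hc => h hc.2), if_neg h, mul_zero]
  · intro j' _ hj'
    refine Finset.sum_eq_zero fun l _ => ?_
    show y (j', l) * (if j' = j ∧ τ l = i then 1 else 0) = _
    rw [if_neg (fun hc => hj' hc.1), mul_zero]
  · intro h
    exact absurd (Finset.mem_univ j) h

theorem mt_sm (τ : I₁ → I₀) (y : J × I₁ → MonoidAlgebra k Γ) :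
    y ᵥ* mt k Γ J τ ᵥ* sm k Γ J I₀ = y ᵥ* sm k Γ J I₁ := by
  funext j
  rw [vecMul_sm, vecMul_sm]
  simp only [vecMul_mt]
  rw [Finset.sum_comm]
  refine Finset.sum_congr rfl fun l _ => ?_
  rw [Finset.sum_ite_eq Finset.univ (τ l) (fun _ => y (j, l)), if_pos (Finset.mem_univ _)]

theorem mt_mem (f : E → V) (hf : ∀ (g : Γ) (e : E), f (g • e) = g • f e) {vt : I₀ → V}
    {et : I₁ → E} (τ : I₁ → I₀) (hτ : ∀ l, vt (τ l) = f (et l))
    {N : Submodule (MonoidAlgebra k Γ) (J → MonoidAlgebra k Γ)} {y : J × I₁ → MonoidAlgebra k Γ}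
    (hy : y ∈ Mo et N) : y ᵥ* mt k Γ J τ ∈ Mo vt N := by
  intro v
  have h1 : Grd (fun p : J × I₁ => f (et p.2)) (dv J vt) (mt k Γ J τ) := by
    intro p q g hg
    by_cases h : p.1 = q.1 ∧ τ p.2 = q.2
    · have h2 : mt k Γ J τ p q = 1 := if_pos h
      rw [h2, MonoidAlgebra.one_def] at hg
      rw [coeff_single_ne hg, one_smul]
      show f (et p.2) = vt q.2
      rw [← h.2, hτ]
    · have h2 : mt k Γ J τ p q = 0 := if_neg h
      rw [h2] at hg
      exact absurd rfl hg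
  have h2 : res (fun p : J × I₁ => f (et p.2)) {v} y = res (dv J et) {e | f e = v} y := by
    funext p
    rw [res_apply, res_apply]
    refine fil_congr fun g _ => ?_
    show g • f (et p.2) = v ↔ f (g • et p.2) = v
    rw [hf]
  rw [h1.res_vecMul, mt_sm, h2]
  exact mo_res hy _

variable {T : OTree Γ V E} {b : V} {V₀ : Finset V} {E₀ : Finset E} {M : V → E → ℤ}
  {vt : I₀ → V} {et : I₁ → E}

/-- The boundary map. -/
theorem bd_apply (hv : Enum vt V₀) (τ ω : I₁ → I₀) (hτ : ∀ l, vt (τ l) = T.t (et l))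
    (hω : ∀ l, vt (ω l) = T.o (et l)) (y : J × I₁ → MonoidAlgebra k Γ) (j : J) (i : I₀) :
    (y ᵥ* (mt k Γ J τ - mt k Γ J ω)) (j, i) = ∑ l, bd T (et l) (vt i) • y (j, l) := by
  rw [Matrix.vecMul_sub, Pi.sub_apply, vecMul_mt, vecMul_mt, ← Finset.sum_sub_distrib]
  refine Finset.sum_congr rfl fun l _ => ?_
  unfold bd
  rw [sub_smul]
  congr 1
  · by_cases h : τ l = i
    · rw [if_pos h, if_pos (by rw [← hτ, h]), one_smul]
    · rw [if_neg h, if_neg (fun hc => h (hv.inj ((hτ l).trans hc.symm))), zero_smul]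
  · by_cases h : ω l = i
    · rw [if_pos h, if_pos (by rw [← hω, h]), one_smul]
    · rw [if_neg h, if_neg (fun hc => h (hv.inj ((hω l).trans hc.symm))), zero_smul]

/-- The contraction. -/
noncomputable def ct (M : V → E → ℤ) (vt : I₀ → V) (et : I₁ → E) (x : J × I₀ → MonoidAlgebra k Γ) :
    J × I₁ → MonoidAlgebra k Γ := fun p => ∑ i, M (vt i) (et p.2) • x (p.1, i)

theorem ct_res (hT : T.Subtrees b) (h : FSub T b V₀ E₀ M) (hv : Enum vt V₀) (he : Enum et E₀)
    {x : J × I₀ → MonoidAlgebra k Γ} (hx : x ᵥ* sm k Γ J I₀ = 0) (e : E) :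
    (res (dv J et) {e} (ct M vt et x)) ᵥ* sm k Γ J I₁ =
      (res (dv J vt) (T.H e) x) ᵥ* sm k Γ J I₀ := by
  classical
  funext j
  rw [vecMul_sm, vecMul_sm]
  ext γ
  rw [← cf_apply, ← cf_apply, map_sum, map_sum]
  have ha : ∑ i, cf k γ (x (j, i)) = 0 := by
    have h1 := congrArg (cf k γ) (congrFun hx j)
    rw [vecMul_sm, map_sum] at h1
    exact h1
  have hL : ∀ l, cf k γ (res (dv J et) {e} (ct M vt et x) (j, l)) =
      if γ • et l = e then ∑ i, M (vt i) (et l) • cf k γ (x (j, i)) else 0 := by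
    intro l
    by_cases h1 : γ • et l = e
    · rw [if_pos h1]
      have h2 : γ ∈ {h' : Γ | h' • dv J et (j, l) ∈ ({e} : Set E)} := h1
      rw [cf_apply, res_apply, fil_pos h2, ← cf_apply]
      show cf k γ (∑ i, M (vt i) (et l) • x (j, i)) = _
      rw [map_sum]
      exact Finset.sum_congr rfl fun i _ => map_zsmul _ _ _
    · rw [if_neg h1]
      have h2 : γ ∉ {h' : Γ | h' • dv J et (j, l) ∈ ({e} : Set E)} := h1
      rw [cf_apply, res_apply, fil_neg h2]
  have hR : ∀ i, cf k γ (res (dv J vt) (T.H e) x (j, i)) =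
      hh T (γ⁻¹ • e) (vt i) • cf k γ (x (j, i)) := by
    intro i
    have h0 : γ • vt i ∈ T.H e ↔ vt i ∈ T.H (γ⁻¹ • e) := by
      rw [← smul_mem_H hT γ (γ⁻¹ • e) (vt i), smul_inv_smul]
    by_cases h1 : γ • vt i ∈ T.H e
    · have h2 : γ ∈ {h' : Γ | h' • dv J vt (j, i) ∈ T.H e} := h1
      rw [cf_apply, res_apply, fil_pos h2, hh, if_pos (h0.1 h1), one_smul, cf_apply]
    · have h2 : γ ∉ {h' : Γ | h' • dv J vt (j, i) ∈ T.H e} := h1
      rw [cf_apply, res_apply, fil_neg h2, hh, if_neg (fun hc => h1 (h0.2 hc)), zero_smul]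
  simp only [hL, hR]
  by_cases h1 : ∃ l, γ • et l = e
  · obtain ⟨l, rfl⟩ := h1
    rw [Finset.sum_eq_single l]
    · rw [if_pos rfl, inv_smul_smul]
      simp only [contr_eq h hv he, sub_smul]
      rw [Finset.sum_sub_distrib, ← Finset.smul_sum, ha, smul_zero, sub_zero]
    · intro l' _ hne
      rw [if_neg]
      intro hc
      have h2 : γ • et l' = γ • et l := hc
      exact hne (he.inj (smul_left_cancel γ h2))
    · intro hc
      exact absurd (Finset.mem_univ l) hc
  · rw [Finset.sum_eq_zero fun l _ => if_neg fun hc => h1 ⟨l, hc⟩]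
    have h2 : γ⁻¹ • e ∉ E₀ := by
      intro hc
      obtain ⟨l, hl⟩ := he.surj _ hc
      exact h1 ⟨l, by rw [hl, smul_inv_smul]⟩
    have h3 : ∀ i, hh T (γ⁻¹ • e) (vt i) = hh T (γ⁻¹ • e) b := by
      intro i
      by_contra hc
      unfold hh at hc
      by_cases h4 : vt i ∈ T.H (γ⁻¹ • e)
      · by_cases h5 : b ∈ T.H (γ⁻¹ • e)
        · rw [if_pos h4, if_pos h5] at hc
          exact hc rfl
        · exact h2 (h.sepe (hv.mem i) h.hb h4 h5)
      · by_cases h5 : b ∈ T.H (γ⁻¹ • e)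
        · exact h2 (h.sepe h.hb (hv.mem i) h5 h4)
        · rw [if_neg h4, if_neg h5] at hc
          exact hc rfl
    simp only [h3]
    rw [← Finset.smul_sum, ha, smul_zero]

/-- The exact sequence. -/
theorem res_of_mo (hT : T.Subtrees b) (h : FSub T b V₀ E₀ M) (hv : Enum vt V₀) (he : Enum et E₀)
    {Λ : Type} [Fintype Λ] (z : Matrix Λ J (MonoidAlgebra k Γ))
    (hz : ∀ (l : Λ) (j : J) (γ : Γ), (z l j).coeff γ ≠ 0 → γ⁻¹ • b ∈ V₀)
    (h0 : ∃ n, HasFPRes (MonoidAlgebra k Γ) n (Mo vt (LinearMap.range z.vecMulLinear)))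
    (h1 : ∃ n, HasFPRes (MonoidAlgebra k Γ) n (Mo et (LinearMap.range z.vecMulLinear))) :
    ∃ n, HasFPRes (MonoidAlgebra k Γ) n (LinearMap.range z.vecMulLinear) := by
  classical
  have hτ : ∀ l, ∃ i, vt i = T.t (et l) := fun l => hv.surj _ (h.ends _ (he.mem l)).2
  have hω : ∀ l, ∃ i, vt i = T.o (et l) := fun l => hv.surj _ (h.ends _ (he.mem l)).1
  choose τ hτ using hτ
  choose ω hω using hω
  set N := LinearMap.range z.vecMulLinear with hN
  have hmaps : ∀ y ∈ Mo et N, y ᵥ* (mt k Γ J τ - mt k Γ J ω) ∈ Mo vt N := by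
    intro y hy
    rw [Matrix.vecMul_sub]
    exact Submodule.sub_mem _ (mt_mem T.t T.t_smul τ hτ hy) (mt_mem T.o T.o_smul ω hω hy)
  refine Pool.Agent.NegK.H50.ext (MonoidAlgebra k Γ) (Mo et N) (Mo vt N) N
    ((mt k Γ J τ - mt k Γ J ω).vecMulLinear.restrict hmaps)
    ((sm k Γ J I₀).vecMulLinear.restrict fun x hx => mo_sm hx) ?_ ?_ ?_ h1 h0
  · refine (injective_iff_map_eq_zero _).2 ?_
    rintro ⟨y, hy⟩ hy0
    have h2 : y ᵥ* (mt k Γ J τ - mt k Γ J ω) = 0 := congrArg Subtype.val hy0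
    refine Subtype.ext ?_
    show y = 0
    funext p
    have h3 := chain_inj h hv he (fun l => y (p.1, l)) (fun i => by
      rw [← bd_apply hv τ ω hτ hω, h2]
      rfl)
    exact congrFun h3 p.2
  · rintro ⟨x, hx⟩
    obtain ⟨y, hy, hyx⟩ := mo_surj (vt := vt) hv.inj z b (fun l j γ hγ => by
      obtain ⟨i, hi⟩ := hv.surj _ (hz l j γ hγ)
      exact ⟨i, by rw [hi, smul_inv_smul]⟩) hx
    exact ⟨⟨y, hy⟩, Subtype.ext hyx⟩
  · apply le_antisymm
    · rintro _ ⟨⟨y, hy⟩, rfl⟩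
      rw [LinearMap.mem_ker]
      refine Subtype.ext ?_
      show y ᵥ* (mt k Γ J τ - mt k Γ J ω) ᵥ* sm k Γ J I₀ = 0
      rw [Matrix.vecMul_sub, Matrix.sub_vecMul, mt_sm, mt_sm, sub_self]
    · rintro ⟨x, hx⟩ hx0
      have h2 : x ᵥ* sm k Γ J I₀ = 0 := congrArg Subtype.val (LinearMap.mem_ker.1 hx0)
      have h3 : ct M vt et x ∈ Mo et N := by
        intro e
        rw [ct_res hT h hv he h2]
        exact mo_res hx _
      refine ⟨⟨ct M vt et x, h3⟩, Subtype.ext ?_⟩
      show ct M vt et x ᵥ* (mt k Γ J τ - mt k Γ J ω) = x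
      funext p
      obtain ⟨j, i⟩ := p
      rw [bd_apply hv τ ω hτ hω]
      refine chain_exact h hv he (fun i => x (j, i)) ?_ i
      have h4 := congrFun h2 j
      rw [vecMul_sm] at h4
      exact h4

end exact

/-! ### The theorem -/

/-- Group rings of trivial groups. -/
theorem regCoh_trivial {k G : Type u} [Ring k] [Group G] [Unique G] (hk : RegularRing k) :
    RegCoh (MonoidAlgebra k G) :=
  H89.rci.1 k (MonoidAlgebra k G) (MonoidAlgebra.uniqueRingEquiv G).symm
    (TW.H67.regCoh_of_regular hk)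

/-- FREE. A group acting freely on the vertices of a tree is in the class `InRC`. -/
theorem free_inRC {Γ V E : Type u} [Group Γ] [MulAction Γ V] [MulAction Γ E] (T : OTree Γ V E)
    (b : V) (hT : T.Subtrees b) (hfree : ∀ (g : Γ) (v : V), g • v = v → g = 1) : InRC Γ := by
  classical
  intro R _ hR n N hN
  have hfreeE : ∀ (g : Γ) (e : E), g • e = e → g = 1 := fun g e hg =>
    hfree g (T.t e) (by rw [← T.t_smul, hg])
  obtain ⟨m, z, hz⟩ := Submodule.fg_iff_exists_fin_generating_family.1 hN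
  let Z : Matrix (Fin m) (Fin n) (MonoidAlgebra R Γ) := z
  have hZ : LinearMap.range Z.vecMulLinear = N := by
    rw [← hz]
    apply le_antisymm
    · rintro _ ⟨x, rfl⟩
      rw [Matrix.vecMulLinear_apply, Matrix.vecMul_eq_sum]
      exact Submodule.sum_mem _ fun a _ => Submodule.smul_mem _ _ (Submodule.subset_span ⟨a, rfl⟩)
    · refine Submodule.span_le.2 ?_
      rintro _ ⟨a, rfl⟩
      refine ⟨Pi.single a 1, ?_⟩
      rw [Matrix.vecMulLinear_apply, Matrix.single_one_vecMul]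
      rfl
  obtain ⟨V₀, E₀, M, hF, h⟩ := exists_fsub hT
    (Finset.univ.biUnion fun l : Fin m => Finset.univ.biUnion fun j : Fin n =>
      (Z l j).coeff.support.image fun γ => γ⁻¹ • b)
  obtain ⟨vt, hv⟩ := exists_enum V₀
  obtain ⟨et, he⟩ := exists_enum E₀
  have hcoh : CohStatement.{u} := TW.H30.coh (TW.H14.coh1 TW.H59.mra TW.H59.mrb TW.H14.mrc)
  have key : ∀ {X : Type u} [MulAction Γ X] {I : Type} [Fintype I] (vt : I → X),
      (∀ (g : Γ) (v : X), g • v = v → g = 1) → ∃ d, HasFPRes (MonoidAlgebra R Γ) d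
        (Mo vt (LinearMap.range Z.vecMulLinear)) := by
    intro X _ I _ vt hX
    obtain ⟨Θ, _, Y, c, hY1, hY2⟩ := mo_gen (J := Fin n) hR.1 hX vt
      (LinearMap.range Z.vecMulLinear)
    rw [← hY2]
    refine hcoh R Γ X (Fin n × I) Θ (dv (Fin n) vt) Y c hY1 fun a => ?_
    have : Unique (MulAction.stabilizer Γ (c a)) :=
      { default := 1
        uniq := fun g => Subtype.ext (hX g (c a) g.2) }
    exact regCoh_trivial hR
  rw [← hZ]
  refine res_of_mo hT h hv he Z (fun l j γ hγ => hF ?_) (key vt hfree) (key et hfreeE)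
  rw [Finset.mem_biUnion]
  refine ⟨l, Finset.mem_univ l, ?_⟩
  rw [Finset.mem_biUnion]
  exact ⟨j, Finset.mem_univ j, Finset.mem_image_of_mem _ (Finsupp.mem_support_iff.2 hγ)⟩

end Pool.Agent.NegK.TT.H66
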