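import Pool.Agent.Lib.MP_28303a_al.TT.H66.Free
import Pool.Agent.Lib.MP_28303a_al.TW.H57.Tre
import Pool.Agent.Lib.MP_28303a_al.TW.H12.Subt
import Pool.Agent.Lib.MP_28303a_al.TW.H19.Fin1

/-! # FREE for trees given as simple graphs -/

set_option autoImplicit false
set_option linter.unusedSectionVars false
set_option linter.unusedVariables false

namespace Pool.Agent.NegK.TT.H66

universe u

open Pool.Agent.NegK.TW

/-- FREE. A group acting on a tree without inversions, such that no element `g ≠ 1` fixes a vertex,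
is in the class `InRC`. -/
theorem free_tree {Γ V : Type u} [Group Γ] [MulAction Γ V] (G : SimpleGraph V)
    (hG : TreeAct Γ G) (hfree : ∀ (g : Γ) (v : V), g • v = v → g = 1) : InRC Γ := by
  obtain ⟨E, _, T, hT⟩ := TW.H19.tre' Γ V G hG
  obtain ⟨b⟩ := hG.tree.connected.nonempty
  exact free_inRC T b (TW.H12.subt Γ V E G T hG.tree hT b) hfree

/-- FREE for subgroups. -/
theorem free_sub {Γ V : Type u} [Group Γ] [MulAction Γ V] (G : SimpleGraph V)
    (hG : TreeAct Γ G) (H : Subgroup Γ) (hfree : ∀ g ∈ H, ∀ (v : V), g • v = v → g = 1) :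
    InRC H := by
  refine free_tree G ⟨hG.tree, fun g v w h => hG.adj g v w h, fun g v w h => hG.noinv g v w h⟩
    fun g v hg => Subtype.ext (hfree g g.2 v hg)

end Pool.Agent.NegK.TT.H66
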