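import Pool.Agent.Lib.MP_28303a_al.TT.TC

/-! # Rows whose homogeneous parts add up to elements of a module -/

set_option autoImplicit false
set_option linter.unusedSectionVars false
set_option linter.unusedVariables false

namespace Pool.Agent.NegK.TT.H66

universe u

open Pool.Agent.NegK.TW Matrix MonoidAlgebra

section graded

variable {k : Type u} [Ring k] {Γ : Type u} [Group Γ] {X : Type u} [MulAction Γ X] {J I : Type}
  [Fintype J] [DecidableEq J] [Fintype I]

/-- The coefficient of `γ`. -/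
def cf (k : Type u) [Ring k] {Γ : Type u} [Group Γ] (γ : Γ) : MonoidAlgebra k Γ →+ k where
  toFun x := x.coeff γ
  map_zero' := rfl
  map_add' x y := by rw [MonoidAlgebra.coeff_add, Finsupp.add_apply]

theorem cf_apply (γ : Γ) (x : MonoidAlgebra k Γ) : cf k γ x = x.coeff γ := rfl

/-- Components are added up over `i`. -/
noncomputable def sm (k Γ : Type u) [Ring k] [Group Γ] (J I : Type) [DecidableEq J] :
    Matrix (J × I) J (MonoidAlgebra k Γ) := fun p j => if p.1 = j then 1 else 0

/-- The row of degree `v` corresponding to the row `m`. -/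
noncomputable def lf {I : Type} (vt : I → X) (v : X) (m : J → MonoidAlgebra k Γ) :
    J × I → MonoidAlgebra k Γ := fun p => fil {γ | γ • vt p.2 = v} (m p.1)

theorem vecMul_sm (x : J × I → MonoidAlgebra k Γ) (j : J) :
    (x ᵥ* sm k Γ J I) j = ∑ i, x (j, i) := by
  rw [Matrix.vecMul, dotProduct, Fintype.sum_prod_type, Finset.sum_eq_single j]
  · refine Finset.sum_congr rfl fun i _ => ?_
    show x (j, i) * (if j = j then 1 else 0) = _
    rw [if_pos rfl, mul_one]
  · intro j' _ hj'
    refine Finset.sum_eq_zero fun i _ => ?_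
    show x (j', i) * (if j' = j then 1 else 0) = _
    rw [if_neg hj', mul_zero]
  · intro h
    exact absurd (Finset.mem_univ j) h

/-- The degrees of `J × I`. -/
abbrev dv (J : Type) {I : Type} (vt : I → X) : J × I → X := fun p => vt p.2

theorem sum_vecMul {A : Type u} [Ring A] {α : Type*} {ι κ : Type} [Fintype ι] (s : Finset α)
    (x : α → ι → A) (M : Matrix ι κ A) : (∑ a ∈ s, x a) ᵥ* M = ∑ a ∈ s, x a ᵥ* M := by
  have := map_sum M.vecMulLinear x s
  exact this

/-- The rows whose homogeneous parts, added up, lie in `N`. -/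
noncomputable def Mo (vt : I → X) (N : Submodule (MonoidAlgebra k Γ) (J → MonoidAlgebra k Γ)) :
    Submodule (MonoidAlgebra k Γ) (J × I → MonoidAlgebra k Γ) where
  carrier := {x | ∀ v : X, (res (dv J vt) {v} x) ᵥ* sm k Γ J I ∈ N}
  zero_mem' v := by
    rw [map_zero, Matrix.zero_vecMul]
    exact N.zero_mem
  add_mem' hx hy v := by
    rw [map_add, Matrix.add_vecMul]
    exact N.add_mem (hx v) (hy v)
  smul_mem' r x hx := by
    induction r using MonoidAlgebra.induction_linear with
    | zero =>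
      intro v
      rw [zero_smul, map_zero, Matrix.zero_vecMul]
      exact N.zero_mem
    | add r s hr hs =>
      intro v
      rw [add_smul, map_add, Matrix.add_vecMul]
      exact N.add_mem (hr v) (hs v)
    | single g c =>
      intro v
      rw [res_single_smul, Matrix.smul_vecMul]
      have h : {d | g • d ∈ ({v} : Set X)} = {g⁻¹ • v} := by
        ext d
        rw [Set.mem_ofPred_eq, Set.mem_singleton_iff, Set.mem_singleton_iff,
          smul_eq_iff_eq_inv_smul]
      rw [h]
      exact N.smul_mem _ (hx _)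

variable {vt : I → X} {N : Submodule (MonoidAlgebra k Γ) (J → MonoidAlgebra k Γ)}

theorem mem_mo {x : J × I → MonoidAlgebra k Γ} :
    x ∈ Mo vt N ↔ ∀ v : X, (res (dv J vt) {v} x) ᵥ* sm k Γ J I ∈ N := Iff.rfl

theorem mo_res {x : J × I → MonoidAlgebra k Γ} (hx : x ∈ Mo vt N) (S : Set X) :
    (res (dv J vt) S x) ᵥ* sm k Γ J I ∈ N := by
  classical
  obtain ⟨F, hF⟩ := exists_degrees (dv J vt) x
  rw [← hF.sum_res, map_sum, sum_vecMul]
  refine Submodule.sum_mem _ fun d _ => ?_
  rw [res_res]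
  by_cases hd : d ∈ S
  · rw [Set.inter_eq_right.2 (Set.singleton_subset_iff.2 hd)]
    exact hx d
  · have : S ∩ {d} = ∅ := by
      ext x
      simp only [Set.mem_inter_iff, Set.mem_singleton_iff, Set.mem_empty_iff_false, iff_false,
        not_and]
      rintro h rfl
      exact hd h
    rw [this, res_empty, Matrix.zero_vecMul]
    exact N.zero_mem

theorem mo_sm {x : J × I → MonoidAlgebra k Γ} (hx : x ∈ Mo vt N) : x ᵥ* sm k Γ J I ∈ N := by
  have := mo_res hx Set.univ
  rwa [res_univ] at this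

theorem res_mem_mo {x : J × I → MonoidAlgebra k Γ} (hx : x ∈ Mo vt N) (v : X) :
    res (dv J vt) {v} x ∈ Mo vt N := by
  intro v'
  rw [res_res]
  exact mo_res hx _

theorem mem_mo_of_spt {x : J × I → MonoidAlgebra k Γ} {v : X} (h1 : Spt (dv J vt) {v} x)
    (h2 : x ᵥ* sm k Γ J I ∈ N) : x ∈ Mo vt N := by
  intro v'
  by_cases hv : v' = v
  · rw [hv, h1.res_eq]
    exact h2
  · rw [h1.res_eq_zero (fun d hd hc => hv ((Set.mem_singleton_iff.1 hc).symm.trans
      (Set.mem_singleton_iff.1 hd))), Matrix.zero_vecMul]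
    exact N.zero_mem

theorem spt_lf (vt : I → X) (v : X) (m : J → MonoidAlgebra k Γ) :
    Spt (dv J vt) {v} (lf vt v m) := fun _ _ hc => (fil_ne hc).1

theorem lf_sm (hvt : Function.Injective vt) {v : X} {m : J → MonoidAlgebra k Γ}
    (hm : ∀ (j : J) (γ : Γ), (m j).coeff γ ≠ 0 → ∃ i, γ • vt i = v) :
    lf vt v m ᵥ* sm k Γ J I = m := by
  classical
  funext j
  rw [vecMul_sm]
  ext γ
  rw [MonoidAlgebra.coeff_sum, Finsupp.finsetSum_apply]
  by_cases h0 : (m j).coeff γ = 0
  · rw [h0]
    refine Finset.sum_eq_zero fun i _ => ?_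
    by_contra hc
    exact (fil_ne hc).2 h0
  · obtain ⟨i, hi⟩ := hm j γ h0
    rw [Finset.sum_eq_single i]
    · have h1 : γ ∈ {γ : Γ | γ • vt i = v} := hi
      exact fil_pos h1 _
    · intro i' _ hne
      refine fil_neg ?_ _
      intro hc
      have h1 : γ • vt i' = v := hc
      have h2 : γ • vt i' = γ • vt i := h1.trans hi.symm
      exact hne (hvt (smul_left_cancel γ h2))
    · intro h
      exact absurd (Finset.mem_univ i) h

/-- Surjectivity onto modules generated by rows with covered supports. -/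
theorem mo_surj (hvt : Function.Injective vt) {Λ : Type} [Fintype Λ]
    (z : Matrix Λ J (MonoidAlgebra k Γ)) (b : X)
    (hz : ∀ (l : Λ) (j : J) (γ : Γ), (z l j).coeff γ ≠ 0 → ∃ i, γ • vt i = b)
    {x : J → MonoidAlgebra k Γ} (hx : x ∈ LinearMap.range z.vecMulLinear) :
    ∃ y ∈ Mo vt (LinearMap.range z.vecMulLinear), y ᵥ* sm k Γ J I = x := by
  classical
  obtain ⟨c, rfl⟩ := hx
  refine ⟨∑ l, c l • lf vt b (z l), ?_, ?_⟩
  · refine Submodule.sum_mem _ fun l _ => Submodule.smul_mem _ _ ?_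
    refine mem_mo_of_spt (spt_lf vt b (z l)) ?_
    rw [lf_sm hvt (hz l)]
    refine ⟨Pi.single l 1, ?_⟩
    rw [Matrix.vecMulLinear_apply, Matrix.single_one_vecMul]
    rfl
  · rw [sum_vecMul, Matrix.vecMulLinear_apply, Matrix.vecMul_eq_sum]
    refine Finset.sum_congr rfl fun l _ => ?_
    rw [Matrix.smul_vecMul, lf_sm hvt (hz l)]

end graded

/-! ### Finite generation for free actions -/

section gen

variable {k : Type u} [Ring k] {Γ : Type u} [Group Γ] {X : Type u} [MulAction Γ X] {J I : Type}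
  [Fintype J] [DecidableEq J] [Fintype I]

theorem fg_part (hk : IsNoetherian k k) (hfree : ∀ (g : Γ) (v : X), g • v = v → g = 1)
    (vt : I → X) (M : Submodule (MonoidAlgebra k Γ) (J × I → MonoidAlgebra k Γ)) (v : X) :
    ∃ (n : ℕ) (w : Fin n → J × I → MonoidAlgebra k Γ),
      (∀ a, w a ∈ M ∧ Spt (dv J vt) {v} (w a)) ∧
      ∀ x ∈ M, Spt (dv J vt) {v} x → x ∈ Submodule.span (MonoidAlgebra k Γ) (Set.range w) := by
  classical
  have hg : ∀ p : J × I, ∃ g : Γ, ∀ γ : Γ, γ • vt p.2 = v → γ = g := by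
    intro p
    by_cases h : ∃ γ : Γ, γ • vt p.2 = v
    · obtain ⟨g, hg⟩ := h
      refine ⟨g, fun γ hγ => ?_⟩
      have h1 : (g⁻¹ * γ) • vt p.2 = vt p.2 := by
        rw [mul_smul, hγ, ← hg, inv_smul_smul]
      have h2 := hfree _ _ h1
      rw [inv_mul_eq_one] at h2
      exact h2.symm
    · exact ⟨1, fun γ hγ => absurd ⟨γ, hγ⟩ h⟩
  choose g hg using hg
  have hinj : ∀ x y : J × I → MonoidAlgebra k Γ, Spt (dv J vt) {v} x → Spt (dv J vt) {v} y →
      (∀ p, (x p).coeff (g p) = (y p).coeff (g p)) → x = y := by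
    intro x y hx hy h
    funext p
    ext γ
    by_cases hγ : γ • vt p.2 = v
    · rw [hg p γ hγ]
      exact h p
    · have h1 : (x p).coeff γ = 0 := by
        by_contra hc
        exact hγ (hx p γ hc)
      have h2 : (y p).coeff γ = 0 := by
        by_contra hc
        exact hγ (hy p γ hc)
      rw [h1, h2]
  have hsm : ∀ (c : k) (x : J × I → MonoidAlgebra k Γ) (p : J × I) (γ : Γ),
      (((single 1 c : MonoidAlgebra k Γ) • x) p).coeff γ = c * (x p).coeff γ := by
    intro c x p γ
    rw [Pi.smul_apply, smul_eq_mul, MonoidAlgebra.coeff_single_mul_apply, inv_one, one_mul]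
  let W : Submodule k (J × I → k) :=
    { carrier := {y | ∃ x ∈ M, Spt (dv J vt) {v} x ∧ ∀ p, (x p).coeff (g p) = y p}
      zero_mem' := ⟨0, M.zero_mem, Spt.zero, fun p => rfl⟩
      add_mem' := by
        rintro _ _ ⟨x, hx, hx1, hx2⟩ ⟨y, hy, hy1, hy2⟩
        refine ⟨x + y, M.add_mem hx hy, hx1.add hy1, fun p => ?_⟩
        rw [Pi.add_apply, MonoidAlgebra.coeff_add, Finsupp.add_apply, hx2, hy2, Pi.add_apply]
      smul_mem' := by
        rintro c _ ⟨x, hx, hx1, hx2⟩
        refine ⟨(single 1 c : MonoidAlgebra k Γ) • x, M.smul_mem _ hx, ?_, fun p => ?_⟩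
        · refine hx1.single_smul 1 c fun d hd => ?_
          rw [one_smul]
          exact hd
        · rw [hsm, hx2, Pi.smul_apply, smul_eq_mul] }
  have hW : W.FG := IsNoetherian.noetherian W
  obtain ⟨n, s, hs⟩ := Submodule.fg_iff_exists_fin_generating_family.1 hW
  have hs1 : ∀ a, s a ∈ W := fun a => hs ▸ Submodule.subset_span ⟨a, rfl⟩
  choose w hw1 hw2 hw3 using hs1
  refine ⟨n, w, fun a => ⟨hw1 a, hw2 a⟩, fun x hx hx1 => ?_⟩
  have h1 : (fun p => (x p).coeff (g p)) ∈ W := ⟨x, hx, hx1, fun p => rfl⟩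
  rw [← hs, Submodule.mem_span_range_iff_exists_fun] at h1
  obtain ⟨c, hc⟩ := h1
  have h2 : x = ∑ a, (single 1 (c a) : MonoidAlgebra k Γ) • w a := by
    refine hinj _ _ hx1 (Spt.sum _ fun a _ => ?_) fun p => ?_
    · refine (hw2 a).single_smul 1 (c a) fun d hd => ?_
      rw [one_smul]
      exact hd
    · have h3 := congrFun hc p
      rw [Finset.sum_apply] at h3
      rw [Finset.sum_apply, MonoidAlgebra.coeff_sum, Finsupp.finsetSum_apply, ← h3]
      refine Finset.sum_congr rfl fun a _ => ?_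
      rw [hsm, hw3, Pi.smul_apply, smul_eq_mul]
  rw [h2]
  exact Submodule.sum_mem _ fun a _ => Submodule.smul_mem _ _ (Submodule.subset_span ⟨a, rfl⟩)

/-- For free actions the modules `Mo` are generated by finitely many homogeneous rows. -/
theorem mo_gen (hk : IsNoetherian k k) (hfree : ∀ (g : Γ) (v : X), g • v = v → g = 1)
    (vt : I → X) (N : Submodule (MonoidAlgebra k Γ) (J → MonoidAlgebra k Γ)) :
    ∃ (Θ : Type) (_ : Fintype Θ) (Z : Matrix Θ (J × I) (MonoidAlgebra k Γ)) (c : Θ → X),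
      (∀ a, Spt (dv J vt) {c a} (Z a)) ∧ LinearMap.range Z.vecMulLinear = Mo vt N := by
  classical
  choose n w hw1 hw2 using fun i : I => fg_part hk hfree vt (Mo vt N) (vt i)
  obtain ⟨Z, hZ⟩ : ∃ Z : Matrix (Σ i : I, Fin (n i)) (J × I) (MonoidAlgebra k Γ),
    ∀ a, Z a = w a.1 a.2 := ⟨fun a => w a.1 a.2, fun a => rfl⟩
  refine ⟨Σ i : I, Fin (n i), inferInstance, Z, fun a => vt a.1,
    fun a => by rw [hZ]; exact (hw1 a.1 a.2).2, ?_⟩
  apply le_antisymm
  · rintro _ ⟨x, rfl⟩
    rw [Matrix.vecMulLinear_apply, Matrix.vecMul_eq_sum]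
    refine Submodule.sum_mem _ fun a _ => Submodule.smul_mem _ _ ?_
    rw [hZ]
    exact (hw1 a.1 a.2).1
  · intro x hx
    obtain ⟨F, hF⟩ := exists_degrees (dv J vt) x
    rw [← hF.sum_res]
    refine Submodule.sum_mem _ fun v _ => ?_
    by_cases h0 : res (dv J vt) {v} x = 0
    · rw [h0]
      exact Submodule.zero_mem _
    · obtain ⟨p, γ, hp⟩ : ∃ (p : J × I) (γ : Γ), (res (dv J vt) {v} x p).coeff γ ≠ 0 := by
        by_contra hc
        push Not at hc
        refine h0 ?_
        funext p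
        ext γ
        exact hc p γ
      have h1 : γ • vt p.2 = v := spt_res (dv J vt) {v} x p γ hp
      have h2 : res (dv J vt) {v} x = (single γ 1 : MonoidAlgebra k Γ) •
          ((single γ⁻¹ 1 : MonoidAlgebra k Γ) • res (dv J vt) {v} x) := by
        rw [smul_smul, MonoidAlgebra.single_mul_single, mul_inv_cancel, one_mul,
          ← MonoidAlgebra.one_def, one_smul]
      rw [h2]
      refine Submodule.smul_mem _ _ ?_
      have h3 := hw2 p.2 _ ((Mo vt N).smul_mem (single γ⁻¹ 1 : MonoidAlgebra k Γ)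
        (res_mem_mo hx v)) ((spt_res (dv J vt) {v} x).single_smul γ⁻¹ 1 (by
          rintro d hd
          rw [Set.mem_singleton_iff] at hd ⊢
          rw [hd, ← h1, inv_smul_smul]))
      refine Submodule.span_le.2 ?_ h3
      rintro _ ⟨a, rfl⟩
      refine ⟨Pi.single ⟨p.2, a⟩ 1, ?_⟩
      rw [Matrix.vecMulLinear_apply, Matrix.single_one_vecMul]
      exact hZ _

end gen

end Pool.Agent.NegK.TT.H66
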